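import Pool.Agent.SandFin.UH
import Pool.Agent.SandFin.PL
import Pool.Agent.SandFin.LO2b
import Pool.Agent.SandFin.RX

/-!
# Critical exponent of the Abelian sandpile on graphs quasi-isometric to a regular tree

For every `d ≥ 3`, every infinite connected vertex-transitive `r`-regular graph `Δ` quasi-isometric to the
`d`-regular tree and every exhaustion of `Δ` by finite connected induced subgraphs containing the origin, the
limits `p n` exist and the critical exponent is `3 / 2`.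
-/

set_option autoImplicit false
open scoped Classical
open Filter Topology

namespace Pool.Agent.Results.MP_4555f0_mp.TreeExponent

variable {V : Type} (Δ : SimpleGraph V)

/-- Quasi-isometry of two graphs with their path metrics. -/
def QuasiIsometric {W : Type} (T : SimpleGraph W) : Prop :=
  ∃ (f : V → W) (L K : ℝ), 1 ≤ L ∧ 0 ≤ K ∧
    (∀ x y, (1 / L) * (Δ.dist x y : ℝ) - K ≤ (T.dist (f x) (f y) : ℝ) ∧
      (T.dist (f x) (f y) : ℝ) ≤ L * (Δ.dist x y : ℝ) + K) ∧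
    ∀ w, ∃ x, (T.dist (f x) w : ℝ) ≤ K

variable [Δ.LocallyFinite]

/-- `χ` is a recurrent configuration on the finite vertex set `G` (heights from `1` to `r` on `G`, value `0`
outside `G`). -/
def IsRec (r : ℕ) (G : Finset V) (χ : V → ℕ) : Prop :=
  (∀ v ∈ G, 1 ≤ χ v ∧ χ v ≤ r) ∧ (∀ v, v ∉ G → χ v = 0) ∧
    ¬ ∃ W : Finset V, W ⊆ G ∧ W.Nonempty ∧ ∀ v ∈ W, χ v ≤ (Δ.neighborFinset v ∩ W).card

/-- Toppling `v`: it loses `r` grains and each neighbour of `v` in `G` gains one. -/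
noncomputable def topple (r : ℕ) (G : Finset V) (v : V) (χ : V → ℕ) : V → ℕ :=
  fun w => if w = v then χ w - r else if w ∈ G ∧ Δ.Adj v w then χ w + 1 else χ w

/-- `l` is a sequence of topplings of vertices of `G` of height `> r` leading from `χ` to `χ'`. -/
def Leads (r : ℕ) (G : Finset V) : List V → (V → ℕ) → (V → ℕ) → Prop
  | [], χ, χ' => χ' = χ
  | v :: l, χ, χ' => v ∈ G ∧ r < χ v ∧ Leads r G l (topple Δ r G v χ) χ'

/-- `l` is a sequence of topplings relaxing `χ`: afterwards all heights on `G` are `≤ r`. -/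
def Relaxes (r : ℕ) (G : Finset V) (χ : V → ℕ) (l : List V) : Prop :=
  ∃ χ', Leads Δ r G l χ χ' ∧ ∀ v ∈ G, χ' v ≤ r

/-- Number of recurrent configurations on `G`. -/
noncomputable def recCount (r : ℕ) (G : Finset V) : ℕ := {χ | IsRec Δ r G χ}.ncard

/-- Number of recurrent configurations on `G` for which adding one grain at `o` and relaxing makes exactly `n`
distinct vertices topple. -/
noncomputable def avCount (r : ℕ) (G : Finset V) (o : V) (n : ℕ) : ℕ :=
  {χ | IsRec Δ r G χ ∧ ∃ l, Relaxes Δ r G (Function.update χ o (χ o + 1)) l ∧ l.toFinset.card = n}.ncard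

/-- The sequence `G` has critical exponent `α`. -/
def HasExponent (r : ℕ) (o : V) (G : ℕ → Finset V) (α : ℝ) : Prop :=
  ∃ p : ℕ → ℝ,
    (∀ n, Tendsto (fun k => (avCount Δ r (G k) o n : ℝ) / (recCount Δ r (G k) : ℝ)) atTop (𝓝 (p n))) ∧
    ∃ (C₁ C₂ : ℝ) (N : ℕ), 0 < C₁ ∧ 0 < C₂ ∧
      ∀ n : ℕ, N < n → 0 < p n → C₁ * (n : ℝ) ^ (-α) < p n ∧ p n < C₂ * (n : ℝ) ^ (-α)

theorem leads_iff {r : ℕ} {G : Finset V} (l : List V) (χ χ' : V → ℕ) :
    Leads Δ r G l χ χ' ↔ Pool.Agent.Sand.Leg Δ r G l χ χ' := by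
  induction l generalizing χ with
  | nil => exact Iff.rfl
  | cons v l ih =>
    unfold Leads Pool.Agent.Sand.Leg
    rw [ih]
    rfl

theorem relaxes_iff {r : ℕ} {G : Finset V} (χ : V → ℕ) (l : List V) :
    Relaxes Δ r G χ l ↔ Pool.Agent.Sand.Relaxes Δ r G χ l := by
  unfold Relaxes Pool.Agent.Sand.Relaxes
  simp only [leads_iff]

theorem isRec_iff {r : ℕ} {G : Finset V} (χ : V → ℕ) :
    IsRec Δ r G χ ↔ χ ∈ Pool.Agent.Sand.rcr Δ r G := by
  unfold IsRec Pool.Agent.Sand.rcr Pool.Agent.Sand.rc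
  rw [Finset.mem_filter, Pool.Agent.Sand.mem_stab]
  constructor
  · rintro ⟨h1, h2, h3⟩
    refine ⟨⟨h1, h2⟩, fun W hW hne => ?_⟩
    by_contra hcon
    push Not at hcon
    exact h3 ⟨W, hW, hne, hcon⟩
  · rintro ⟨⟨h1, h2⟩, h3⟩
    refine ⟨h1, h2, ?_⟩
    rintro ⟨W, hW, hne, hcon⟩
    obtain ⟨v, hv, hlt⟩ := h3 W hW hne
    exact absurd (hcon v hv) (not_le.2 hlt)

section
variable {Δ} {r : ℕ} {h : ℝ} {D0 : ℕ} (H : Pool.Agent.Sand.Hyp Δ r h D0)
include H

theorem avCount_eq {G : Finset V} {o : V} (ho : o ∈ G) (n : ℕ) :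
    (avCount Δ r G o n : ℝ) / (recCount Δ r G : ℝ) =
      Pool.Agent.Sand.pr Δ r G (fun χ => (Pool.Agent.Sand.avs Δ r G χ o).card = n) := by
  unfold avCount recCount Pool.Agent.Sand.pr
  have h1 : {χ | IsRec Δ r G χ} = ↑(Pool.Agent.Sand.rcr Δ r G) := by
    ext χ
    exact isRec_iff Δ χ
  have h2 : {χ | IsRec Δ r G χ ∧ ∃ l, Relaxes Δ r G (Function.update χ o (χ o + 1)) l ∧
      l.toFinset.card = n} = ↑((Pool.Agent.Sand.rcr Δ r G).filter
        fun χ => (Pool.Agent.Sand.avs Δ r G χ o).card = n) := by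
    ext χ
    rw [Finset.mem_coe, Finset.mem_filter, Set.mem_setOf_eq, isRec_iff]
    refine and_congr_right fun hχ => ?_
    have hst := Pool.Agent.Sand.avo_stz H ho hχ
    have hup : Function.update χ o (χ o + 1) = χ + Pool.Agent.Sand.ind {o} := by
      funext v
      by_cases hv : v = o
      · subst hv
        simp [Pool.Agent.Sand.ind]
      · simp [Pool.Agent.Sand.ind, hv]
    have hoff : ∀ v, v ∉ G → (χ + Pool.Agent.Sand.ind {o}) v = 0 := by
      intro v hv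
      have h3 := (Pool.Agent.Sand.mem_stab.1 (Finset.mem_filter.1 hχ).1).2 v hv
      have h4 : v ≠ o := fun h => hv (h ▸ ho)
      simp [Pool.Agent.Sand.ind, h3, h4]
    obtain ⟨⟨l0, hl0⟩, hl⟩ := Pool.Agent.Sand.relax Δ H.reg hoff hst
    have hset : ∀ l, Pool.Agent.Sand.Relaxes Δ r G (χ + Pool.Agent.Sand.ind {o}) l →
        l.toFinset = Pool.Agent.Sand.avs Δ r G χ o := by
      intro l hr
      have h5 := hl l hr
      ext v
      unfold Pool.Agent.Sand.avs Pool.Agent.Sand.avo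
      rw [List.mem_toFinset, Finset.mem_filter, ← h5 v, ← List.count_pos_iff, Nat.pos_iff_ne_zero]
      constructor
      · intro h6
        refine ⟨?_, h6⟩
        by_contra hvG
        rw [h5 v] at h6
        exact h6 (hst.1 v hvG)
      · exact fun h6 => h6.2
    rw [hup]
    constructor
    · rintro ⟨l, hr, hn⟩
      rw [← hset l ((relaxes_iff Δ _ l).1 hr)]
      exact hn
    · intro hn
      refine ⟨l0, (relaxes_iff Δ _ l0).2 hl0, ?_⟩
      rw [hset l0 hl0]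
      exact hn
  rw [h1, h2, Set.ncard_coe_finset, Set.ncard_coe_finset]
  unfold Pool.Agent.Sand.NNr Pool.Agent.Sand.NN
  congr!

end

theorem exists_hyp {d : ℕ} (hd : 3 ≤ d) {W : Type} (T : SimpleGraph W) [T.LocallyFinite] (hT : T.IsTree)
    (hTd : ∀ w, T.degree w = d) (hinf : Infinite V) (hconn : Δ.Connected) {r : ℕ}
    (hreg : ∀ v, Δ.degree v = r) (htrans : ∀ x y, ∃ φ : Δ ≃g Δ, φ x = y) (hqi : QuasiIsometric Δ T) :
    ∃ (h : ℝ) (D0 : ℕ), Pool.Agent.Sand.Hyp Δ r h D0 := by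
  have hqi' : Pool.Agent.Sand.QI Δ T := by
    obtain ⟨f, L, K, hL, hK, h1, h2⟩ := hqi
    have hL0 : 0 < L := by linarith
    refine ⟨f, ⌈L⌉₊, ⌈L * K⌉₊ + ⌈K⌉₊, fun x y => ?_, fun x y => ?_, fun w => ?_⟩
    · have h3 := (h1 x y).2
      have h4 : (T.dist (f x) (f y) : ℝ) ≤ ((⌈L⌉₊ * Δ.dist x y + (⌈L * K⌉₊ + ⌈K⌉₊) : ℕ) : ℝ) := by
        push_cast
        have h5 : L ≤ ⌈L⌉₊ := Nat.le_ceil L
        have h6 : K ≤ ⌈K⌉₊ := Nat.le_ceil K
        have h7 : (0 : ℝ) ≤ ⌈L * K⌉₊ := Nat.cast_nonneg _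
        have h8 : L * (Δ.dist x y : ℝ) ≤ ⌈L⌉₊ * (Δ.dist x y : ℝ) :=
          mul_le_mul_of_nonneg_right h5 (Nat.cast_nonneg _)
        linarith
      exact_mod_cast h4
    · have h3 := (h1 x y).1
      have h4 : (Δ.dist x y : ℝ) ≤ ((⌈L⌉₊ * T.dist (f x) (f y) + (⌈L * K⌉₊ + ⌈K⌉₊) : ℕ) : ℝ) := by
        push_cast
        have h5 : L ≤ ⌈L⌉₊ := Nat.le_ceil L
        have h6 : L * K ≤ ⌈L * K⌉₊ := Nat.le_ceil _
        have h7 : (0 : ℝ) ≤ ⌈K⌉₊ := Nat.cast_nonneg _
        have h8 : L * (T.dist (f x) (f y) : ℝ) ≤ ⌈L⌉₊ * (T.dist (f x) (f y) : ℝ) :=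
          mul_le_mul_of_nonneg_right h5 (Nat.cast_nonneg _)
        have h9 : (Δ.dist x y : ℝ) ≤ L * (T.dist (f x) (f y) : ℝ) + L * K := by
          have h10 : L * ((1 / L) * (Δ.dist x y : ℝ) - K) ≤ L * (T.dist (f x) (f y) : ℝ) :=
            mul_le_mul_of_nonneg_left h3 hL0.le
          have h11 : L * ((1 / L) * (Δ.dist x y : ℝ) - K) = (Δ.dist x y : ℝ) - L * K := by
            field_simp
          linarith
        linarith
      exact_mod_cast h4
    · obtain ⟨x, hx⟩ := h2 w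
      refine ⟨x, ?_⟩
      have h6 : K ≤ ⌈K⌉₊ := Nat.le_ceil K
      have h7 : (T.dist (f x) w : ℝ) ≤ ((⌈L * K⌉₊ + ⌈K⌉₊ : ℕ) : ℝ) := by
        push_cast
        have h8 : (0 : ℝ) ≤ ⌈L * K⌉₊ := Nat.cast_nonneg _
        linarith
      exact_mod_cast h7
  obtain ⟨h, hpos, hiso⟩ := Pool.Agent.Sand.iso_of_qi Δ T d r hd hT hTd hreg hconn hinf hqi'
  obtain ⟨D0, hb⟩ := Pool.Agent.Sand.bott_of_qi Δ T hT hconn hqi'
  exact ⟨h, D0, ⟨hreg, hconn, hinf, htrans, hpos, hiso, hb⟩⟩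

/-- For every `d ≥ 3`, every infinite connected vertex-transitive `r`-regular graph quasi-isometric to the
`d`-regular tree, every origin and every exhaustion, the critical exponent exists and equals `3 / 2`; moreover it
is not an exponent for a trivial reason: `p n` is positive for all large `n`, and no other number is a critical
exponent. -/
theorem result (d : ℕ) (hd : 3 ≤ d) (W : Type) (T : SimpleGraph W) [T.LocallyFinite] (hT : T.IsTree)
    (hTd : ∀ w, T.degree w = d) (V : Type) (Δ : SimpleGraph V) [Δ.LocallyFinite] (hinf : Infinite V)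
    (hconn : Δ.Connected) (r : ℕ) (hreg : ∀ v, Δ.degree v = r)
    (htrans : ∀ x y, ∃ φ : Δ ≃g Δ, φ x = y) (hqi : QuasiIsometric Δ T)
    (o : V) (G : ℕ → Finset V) (hmono : Monotone G) (hGc : ∀ k, (Δ.induce (G k : Set V)).Connected)
    (ho : ∀ k, o ∈ G k) (hG : ∀ v, ∃ k, v ∈ G k) :
    HasExponent Δ r o G (3 / 2) ∧ (∀ α : ℝ, HasExponent Δ r o G α → α = 3 / 2) ∧
      ∀ᶠ n : ℕ in atTop, ∃ pn : ℝ, 0 < pn ∧
        Tendsto (fun k => (avCount Δ r (G k) o n : ℝ) / (recCount Δ r (G k) : ℝ)) atTop (𝓝 pn) := by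
  obtain ⟨h, D0, H⟩ := exists_hyp Δ hd T hT hTd hinf hconn hreg htrans hqi
  have hGt : Tendsto G atTop atTop := tendsto_atTop_finset_of_monotone hmono hG
  choose p hp using fun n => Pool.Agent.Sand.p_lim H o n
  have hp' : ∀ n, Tendsto (fun k => (avCount Δ r (G k) o n : ℝ) / (recCount Δ r (G k) : ℝ)) atTop
      (𝓝 (p n)) := by
    intro n
    have h1 := (hp n).comp hGt
    refine h1.congr fun k => ?_
    rw [avCount_eq H (ho k) n]
    rfl
  obtain ⟨K, hK, hup⟩ := Pool.Agent.Sand.p_upper H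
  obtain ⟨c, n₀, hc, hlo⟩ := Pool.Agent.Sand.p_lower H o
  have hU : ∀ n : ℕ, 1 ≤ n → p n ≤ K * (n : ℝ) ^ (-(3 / 2 : ℝ)) := fun n hn =>
    le_of_tendsto (hp n) (hup o n hn)
  have hL : ∀ n : ℕ, n₀ ≤ n → c * (n : ℝ) ^ (-(3 / 2 : ℝ)) ≤ p n := fun n hn =>
    ge_of_tendsto (hp n) (hlo n hn)
  have hpos : ∀ n : ℕ, 1 ≤ n → 0 < (n : ℝ) ^ (-(3 / 2 : ℝ)) := by
    intro n hn
    have : (0 : ℝ) < n := by exact_mod_cast hn
    positivity
  refine ⟨⟨p, hp', c / 2, 2 * K, n₀, by positivity, by positivity, fun n hn _ => ?_⟩, ?_, ?_⟩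
  · have hn1 : 1 ≤ n := by omega
    have h1 := hU n hn1
    have h2 := hL n hn.le
    have h3 := hpos n hn1
    constructor
    · nlinarith
    · nlinarith
  · rintro α ⟨p', hp1, C₁, C₂, N, hC1, hC2, hN⟩
    have hpp : ∀ n, p' n = p n := fun n => tendsto_nhds_unique (hp1 n) (hp' n)
    have hev : ∀ n : ℕ, max (max N n₀) 1 < n → C₁ * (n : ℝ) ^ (-α) < K * (n : ℝ) ^ (-(3 / 2 : ℝ)) ∧
        c * (n : ℝ) ^ (-(3 / 2 : ℝ)) < C₂ * (n : ℝ) ^ (-α) := by
      intro n hn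
      have hn1 : 1 ≤ n := by omega
      have h1 := hU n hn1
      have h2 := hL n (by omega)
      have h3 := hpos n hn1
      have h4 : 0 < p' n := by rw [hpp]; exact lt_of_lt_of_le (by positivity) h2
      have h5 := hN n (by omega) h4
      rw [hpp] at h5
      exact ⟨lt_of_lt_of_le h5.1 h1, lt_of_le_of_lt h2 h5.2⟩
    by_contra hne
    have key : ∀ β A : ℝ, 0 < β → ∃ n : ℕ, max (max N n₀) 1 < n ∧ A < (n : ℝ) ^ β := by
      intro β A hβ
      have h1 : Tendsto (fun n : ℕ => (n : ℝ) ^ β) atTop atTop :=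
        (tendsto_rpow_atTop hβ).comp tendsto_natCast_atTop_atTop
      have h2 := (h1.eventually_gt_atTop A).and (eventually_gt_atTop (max (max N n₀) 1))
      obtain ⟨n, hn1, hn2⟩ := h2.exists
      exact ⟨n, hn2, hn1⟩
    rcases lt_or_gt_of_ne hne with hlt | hgt
    · obtain ⟨n, hn, hA⟩ := key (3 / 2 - α) (K / C₁) (by linarith)
      have h1 := (hev n hn).1
      have hn0 : (0 : ℝ) < n := by
        have : 0 < n := by omega
        exact_mod_cast this
      have h2 : (n : ℝ) ^ (-α) = (n : ℝ) ^ (3 / 2 - α) * (n : ℝ) ^ (-(3 / 2 : ℝ)) := by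
        rw [← Real.rpow_add hn0]
        congr 1
        ring
      rw [h2] at h1
      have h3 : 0 < (n : ℝ) ^ (-(3 / 2 : ℝ)) := by positivity
      rw [div_lt_iff₀ hC1] at hA
      nlinarith
    · obtain ⟨n, hn, hA⟩ := key (α - 3 / 2) (C₂ / c) (by linarith)
      have h1 := (hev n hn).2
      have hn0 : (0 : ℝ) < n := by
        have : 0 < n := by omega
        exact_mod_cast this
      have h2 : (n : ℝ) ^ (-(3 / 2 : ℝ)) = (n : ℝ) ^ (α - 3 / 2) * (n : ℝ) ^ (-α) := by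
        rw [← Real.rpow_add hn0]
        congr 1
        ring
      rw [h2] at h1
      have h3 : 0 < (n : ℝ) ^ (-α) := by positivity
      rw [div_lt_iff₀ hc] at hA
      nlinarith
  · refine eventually_atTop.2 ⟨max n₀ 1, fun n hn => ⟨p n, ?_, hp' n⟩⟩
    exact lt_of_lt_of_le (mul_pos hc (hpos n (by omega))) (hL n (by omega))

end Pool.Agent.Results.MP_4555f0_mp.TreeExponent
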